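import Pool.Agent.W225.TD2.Stm

/-!
# The cubic case
-/

set_option autoImplicit false

open Finset

namespace Pool.Agent.W225.TD2

variable {n : ℕ} {G : SimpleGraph (Fin n)} {U W : Finset (Fin n)}

open Classical in
/-- neighbours in `U` -/
noncomputable def nb {n : ℕ} (G : SimpleGraph (Fin n)) (U : Finset (Fin n)) (c : Fin n) :
    Finset (Fin n) := U.filter (fun u => G.Adj c u)

theorem mem_nb {c u : Fin n} : u ∈ nb G U c ↔ u ∈ U ∧ G.Adj c u := by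
  classical
  unfold nb
  rw [mem_filter]

theorem dg_eq (c : Fin n) : dg G U c = (nb G U c).card := rfl

theorem zz_eq (c : Fin n) : zz G U c = ∑ u ∈ nb G U c, dg G U u := rfl

theorem mem_rem {v u : Fin n} : u ∈ rem G U v ↔ u ∈ U ∧ u ≠ v ∧ ¬ G.Adj v u := by
  classical
  unfold rem
  rw [mem_filter]

theorem rem_sub {v : Fin n} : rem G U v ⊆ U := fun _ hu => (mem_rem.1 hu).1

theorem rem_ssub {v : Fin n} (hv : v ∈ U) : rem G U v ⊂ U :=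
  ⟨rem_sub, fun h => (mem_rem.1 (h hv)).2.1 rfl⟩

theorem tri (hT : G.CliqueFree 3) {x y z : Fin n} (h1 : G.Adj x y) (h2 : G.Adj y z)
    (h3 : G.Adj x z) : False := by
  classical
  exact hT {x, y, z} (by rw [SimpleGraph.is3Clique_triple_iff]; exact ⟨h1, h3, h2⟩)

theorem dg_le2 (hW : W ⊆ U) {c p : Fin n} (h3 : dg G U c = 3) (hp : p ∈ U) (hcp : G.Adj c p)
    (hpW : p ∉ W) : dg G W c ≤ 2 := by
  rw [dg_eq] at *
  have h1 : nb G W c ⊆ (nb G U c).erase p := by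
    intro u hu
    rw [mem_nb] at hu
    rw [mem_erase, mem_nb]
    exact ⟨fun h => hpW (h ▸ hu.1), hW hu.1, hu.2⟩
  have h2 := card_le_card h1
  rw [card_erase_of_mem (mem_nb.2 ⟨hp, hcp⟩)] at h2
  omega

theorem dg_le1 (hW : W ⊆ U) {c p q : Fin n} (h3 : dg G U c = 3) (hp : p ∈ U) (hq : q ∈ U)
    (hcp : G.Adj c p) (hcq : G.Adj c q) (hpW : p ∉ W) (hqW : q ∉ W) (hpq : p ≠ q) :
    dg G W c ≤ 1 := by
  rw [dg_eq] at *
  have h1 : nb G W c ⊆ ((nb G U c).erase p).erase q := by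
    intro u hu
    rw [mem_nb] at hu
    rw [mem_erase, mem_erase, mem_nb]
    exact ⟨fun h => hqW (h ▸ hu.1), fun h => hpW (h ▸ hu.1), hW hu.1, hu.2⟩
  have h2 := card_le_card h1
  rw [card_erase_of_mem (mem_erase.2 ⟨hpq.symm, mem_nb.2 ⟨hq, hcq⟩⟩),
    card_erase_of_mem (mem_nb.2 ⟨hp, hcp⟩)] at h2
  omega

theorem miss1 {c : Fin n} (h3 : dg G U c = 3) (h : dg G W c ≤ 2) :
    ∃ p ∈ U, G.Adj c p ∧ p ∉ W := by
  by_contra hcon
  push Not at hcon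
  rw [dg_eq] at *
  have h1 : nb G U c ⊆ nb G W c := by
    intro u hu
    rw [mem_nb] at *
    exact ⟨hcon u hu.1 hu.2, hu.2⟩
  have := card_le_card h1
  omega

theorem miss2 {c : Fin n} (h3 : dg G U c = 3) (h : dg G W c ≤ 1) (r : Fin n) :
    ∃ p ∈ U, G.Adj c p ∧ p ∉ W ∧ p ≠ r := by
  by_contra hcon
  push Not at hcon
  rw [dg_eq] at *
  have h1 : (nb G U c).erase r ⊆ nb G W c := by
    intro u hu
    rw [mem_erase, mem_nb] at hu
    rw [mem_nb]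
    refine ⟨?_, hu.2.2⟩
    by_contra hW
    exact hu.1 (hcon u hu.2.1 hu.2.2 hW)
  have h2 := card_le_card h1
  have h4 := pred_card_le_card_erase (s := nb G U c) (a := r)
  omega

theorem dg_ge3 {c : Fin n} (h3 : dg G U c = 3) (h : ∀ p ∈ U, G.Adj c p → p ∈ W) :
    3 ≤ dg G W c := by
  rw [dg_eq] at *
  rw [← h3]
  refine card_le_card fun u hu => ?_
  rw [mem_nb] at *
  exact ⟨h u hu.1 hu.2, hu.2⟩

theorem third {c p q : Fin n} (h3 : dg G U c = 3) (hp : p ∈ U) (hq : q ∈ U)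
    (hcp : G.Adj c p) (hcq : G.Adj c q) (hpq : p ≠ q) :
    ∃ r ∈ U, G.Adj c r ∧ r ≠ p ∧ r ≠ q := by
  rw [dg_eq] at *
  have h1 : 0 < (((nb G U c).erase p).erase q).card := by
    rw [card_erase_of_mem (mem_erase.2 ⟨hpq.symm, mem_nb.2 ⟨hq, hcq⟩⟩),
      card_erase_of_mem (mem_nb.2 ⟨hp, hcp⟩)]
    omega
  obtain ⟨r, hr⟩ := card_pos.1 h1
  rw [mem_erase, mem_erase, mem_nb] at hr
  exact ⟨r, hr.2.2.1, hr.2.2.2, hr.2.1, hr.1⟩

theorem only {c p q r t : Fin n} (h3 : dg G U c = 3) (hp : p ∈ U) (hq : q ∈ U) (hr : r ∈ U)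
    (hcp : G.Adj c p) (hcq : G.Adj c q) (hcr : G.Adj c r) (hpq : p ≠ q) (hpr : r ≠ p)
    (hqr : r ≠ q) (ht : t ∈ U) (hct : G.Adj c t) : t = p ∨ t = q ∨ t = r := by
  by_contra hcon
  push Not at hcon
  rw [dg_eq] at *
  have h1 : ({p, q, r, t} : Finset (Fin n)) ⊆ nb G U c := by
    intro u hu
    simp only [mem_insert, mem_singleton] at hu
    rw [mem_nb]
    rcases hu with rfl | rfl | rfl | rfl
    · exact ⟨hp, hcp⟩
    · exact ⟨hq, hcq⟩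
    · exact ⟨hr, hcr⟩
    · exact ⟨ht, hct⟩
  have h2 := card_le_card h1
  have h4 : ({p, q, r, t} : Finset (Fin n)).card = 4 := by
    rw [card_insert_of_notMem, card_insert_of_notMem, card_insert_of_notMem, card_singleton]
    · simp only [mem_singleton]
      exact fun h => hcon.2.2 h.symm
    · simp only [mem_insert, mem_singleton, not_or]
      exact ⟨hqr.symm, fun h => hcon.2.1 h.symm⟩
    · simp only [mem_insert, mem_singleton, not_or]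
      exact ⟨hpq, hpr.symm, fun h => hcon.1 h.symm⟩
  omega

theorem zz_ge2 {v : Fin n} (hm : ∀ u ∈ W, 2 ≤ dg G W u) : 2 * dg G W v ≤ zz G W v := by
  rw [zz_eq, dg_eq, mul_comm, ← smul_eq_mul]
  exact card_nsmul_le_sum _ _ _ fun u hu => hm u (mem_nb.1 hu).1

theorem zz_ge5 {v b : Fin n} (hm : ∀ u ∈ W, 2 ≤ dg G W u) (hb : b ∈ W) (hvb : G.Adj v b)
    (hb3 : 3 ≤ dg G W b) : 2 * dg G W v + 1 ≤ zz G W v := by
  have h1 : b ∈ nb G W v := mem_nb.2 ⟨hb, hvb⟩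
  rw [zz_eq, ← add_sum_erase _ _ h1]
  have h2 : ((nb G W v).erase b).card * 2 ≤ ∑ u ∈ (nb G W v).erase b, dg G W u := by
    rw [← smul_eq_mul]
    exact card_nsmul_le_sum _ _ _ fun u hu => hm u (mem_nb.1 (mem_erase.1 hu).2).1
  rw [card_erase_of_mem h1] at h2
  have h3 : 0 < (nb G W v).card := card_pos.2 ⟨b, h1⟩
  rw [dg_eq (U := W) v]
  omega

theorem zz_ge1 {v : Fin n} (hv : v ∈ W) : dg G W v ≤ zz G W v := by
  have h := card_nsmul_le_sum (nb G W v) (fun u => dg G W u) 1 fun u hu => by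
    rw [mem_nb] at hu
    rw [dg_eq]
    exact card_pos.2 ⟨v, mem_nb.2 ⟨hv, hu.2.symm⟩⟩
  rw [zz_eq, dg_eq]
  simpa using h

/-- the hypotheses -/
structure Ctx (G : SimpleGraph (Fin n)) (U : Finset (Fin n)) (a : ℕ) : Prop where
  hrem : S_REM
  hT : G.CliqueFree 3
  hI : Ind G U a
  hc : ∀ v ∈ U, dg G U v = 3
  hs : sl G U a < 0
  ih : ∀ (U' : Finset (Fin n)) (a' : ℕ), U' ⊂ U → Ind G U' a' → 0 ≤ sl G U' a'

/-- small slack -/
def Low (G : SimpleGraph (Fin n)) (U W : Finset (Fin n)) (c : ℤ) : Prop :=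
  W ⊂ U ∧ ∃ a', Ind G W a' ∧ sl G W a' ≤ c

variable {a : ℕ}

theorem Low.rem (H : Ctx G U a) {c : ℤ} (h : Low G U W c) {v : Fin n} (hv : v ∈ W) {c' : ℤ}
    (hc' : c - (2 * (zz G W v : ℤ) - 10 * (dg G W v : ℤ) + 10) ≤ c') : Low G U (rem G W v) c' := by
  obtain ⟨h1, a', h2, h3⟩ := h
  obtain ⟨h4, h5, h6⟩ := H.hrem n G W a' v H.hT hv h2
  exact ⟨(rem_ssub hv).trans h1, a' - 1, h5, by linarith⟩

theorem Low.nonneg (H : Ctx G U a) {c : ℤ} (h : Low G U W c) : 0 ≤ c := by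
  obtain ⟨h1, a', h2, h3⟩ := h
  have := H.ih W a' h1 h2
  linarith

theorem Low.B (H : Ctx G U a) (h : Low G U W 1) {v : Fin n} (hv : v ∈ W) :
    2 ≤ dg G W v ∧ zz G W v + 5 ≤ 5 * dg G W v := by
  have h1 := Low.nonneg H (Low.rem H h hv le_rfl)
  have h2 := zz_ge1 (G := G) hv
  omega

theorem low1 (H : Ctx G U a) {v : Fin n} (hv : v ∈ U) : Low G U (rem G U v) 1 := by
  obtain ⟨h4, h5, h6⟩ := H.hrem n G U a v H.hT hv H.hI
  have h1 : zz G U v = 9 := by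
    rw [zz_eq, sum_congr rfl fun u hu => H.hc u (mem_nb.1 hu).1, sum_const, smul_eq_mul, ← dg_eq,
      H.hc v hv]
  have h2 := H.hc v hv
  have h3 := H.hs
  rw [h1, h2] at h6
  refine ⟨rem_ssub hv, a - 1, h5, ?_⟩
  rw [h6]
  push_cast
  linarith

theorem C4 (H : Ctx G U a) {v w p q : Fin n} (hv : v ∈ U) (hw : w ∈ U) (hp : p ∈ U) (hq : q ∈ U)
    (hvw : v ≠ w) (h1 : G.Adj v p) (h2 : G.Adj v q) (h3 : G.Adj w p) (h4 : G.Adj w q) : p = q := by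
  by_contra hpq
  have hw1 : w ∈ rem G U v := mem_rem.2 ⟨hw, hvw.symm, fun h => tri H.hT h h3 h1⟩
  have hB := Low.B H (low1 H hv) hw1
  have h5 := dg_le1 (W := rem G U v) rem_sub (H.hc w hw) hp hq h3 h4
    (fun h => (mem_rem.1 h).2.2 h1) (fun h => (mem_rem.1 h).2.2 h2) hpq
  omega

theorem P5 (H : Ctx G U a) {v b w : Fin n} (hv : v ∈ U) (hb : b ∈ U) (hw : w ∈ U)
    (h1 : G.Adj v b) (h2 : G.Adj b w) (hvw : v ≠ w) :
    ∃ u ∈ U, ∃ p ∈ U, G.Adj w u ∧ G.Adj u p ∧ G.Adj p v ∧ p ≠ b := by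
  have hw1 : w ∈ rem G U v := mem_rem.2 ⟨hw, hvw.symm, fun h => tri H.hT h1 h2 h⟩
  obtain ⟨hB1, hB2⟩ := Low.B H (low1 H hv) hw1
  have hd := dg_le2 (W := rem G U v) rem_sub (H.hc w hw) hb h2.symm
    (fun h => (mem_rem.1 h).2.2 h1)
  have h5 : ∃ u ∈ rem G U v, G.Adj w u ∧ dg G (rem G U v) u ≤ 2 := by
    by_contra hcon
    push Not at hcon
    have h6 : (nb G (rem G U v) w).card * 3 ≤ zz G (rem G U v) w := by
      rw [zz_eq, ← smul_eq_mul]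
      exact card_nsmul_le_sum _ _ _ fun u hu => hcon u (mem_nb.1 hu).1 (mem_nb.1 hu).2
    rw [← dg_eq] at h6
    omega
  obtain ⟨u, hu, hwu, hdu⟩ := h5
  have huU := (mem_rem.1 hu).1
  obtain ⟨p, hp, hup, hpn⟩ := miss1 (H.hc u huU) hdu
  have hvp : G.Adj v p := by
    by_contra h
    refine hpn (mem_rem.2 ⟨hp, ?_, h⟩)
    rintro rfl
    exact (mem_rem.1 hu).2.2 hup.symm
  refine ⟨u, huU, p, hp, hwu, hup, hvp.symm, ?_⟩
  rintro rfl
  exact tri H.hT hwu hup h2.symm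

/-- a closed walk of length five -/
structure Cyc (G : SimpleGraph (Fin n)) (U : Finset (Fin n)) (c1 c2 c3 c4 c5 : Fin n) : Prop where
  m1 : c1 ∈ U
  m2 : c2 ∈ U
  m3 : c3 ∈ U
  m4 : c4 ∈ U
  m5 : c5 ∈ U
  h12 : G.Adj c1 c2
  h23 : G.Adj c2 c3
  h34 : G.Adj c3 c4
  h45 : G.Adj c4 c5
  h51 : G.Adj c5 c1

theorem Cyc.rot {c1 c2 c3 c4 c5 : Fin n} (h : Cyc G U c1 c2 c3 c4 c5) : Cyc G U c2 c3 c4 c5 c1 :=
  ⟨h.m2, h.m3, h.m4, h.m5, h.m1, h.h23, h.h34, h.h45, h.h51, h.h12⟩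

theorem Cyc.n13 (H : Ctx G U a) {c1 c2 c3 c4 c5 : Fin n} (h : Cyc G U c1 c2 c3 c4 c5) :
    c1 ≠ c3 := by
  rintro rfl
  exact tri H.hT h.h34 h.h45 h.h51.symm

theorem Cyc.d13 (H : Ctx G U a) {c1 c2 c3 c4 c5 : Fin n} (h : Cyc G U c1 c2 c3 c4 c5) :
    ¬ G.Adj c1 c3 := fun h' => tri H.hT h.h12 h.h23 h'

/-- the second removal -/
theorem lowU2 (H : Ctx G U a) {c1 c2 c3 c4 c5 a1 a3 : Fin n} (h : Cyc G U c1 c2 c3 c4 c5)
    (m1 : a1 ∈ U) (m3 : a3 ∈ U) (h1 : G.Adj c1 a1) (n12 : a1 ≠ c2) (n15 : a1 ≠ c5)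
    (h3 : G.Adj c3 a3) (n32 : a3 ≠ c2) (n34 : a3 ≠ c4) (h13 : ¬ G.Adj a3 a1) :
    Low G U (rem G (rem G U c1) c3) 1 := by
  have hL := low1 H h.m1
  have n13 := h.n13 H
  have d13 := h.d13 H
  have n24 := h.rot.n13 H
  have n35 := h.rot.rot.n13 H
  have n41 := h.rot.rot.rot.n13 H
  have n52 := h.rot.rot.rot.rot.n13 H
  have hc3 : c3 ∈ rem G U c1 := mem_rem.2 ⟨h.m3, n13.symm, d13⟩
  have hd2 := dg_le2 (W := rem G U c1) rem_sub (H.hc c3 h.m3) h.m2 h.h23.symm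
    (fun h' => (mem_rem.1 h').2.2 h.h12)
  have hB := Low.B H hL hc3
  have hn31 : ¬ G.Adj c1 a3 := fun h' =>
    n32 (C4 H h.m1 h.m3 h.m2 m3 n13 h.h12 h' h.h23.symm h3).symm
  have ha3 : a3 ∈ rem G U c1 := by
    refine mem_rem.2 ⟨m3, ?_, hn31⟩
    rintro rfl
    exact d13 h3.symm
  have h5 : 3 ≤ dg G (rem G U c1) a3 := by
    refine dg_ge3 (H.hc a3 m3) fun p hp hap => mem_rem.2 ⟨hp, ?_, fun hp1 => ?_⟩
    · rintro rfl
      exact hn31 hap.symm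
    · rcases only (H.hc c1 h.m1) h.m2 h.m5 m1 h.h12 h.h51.symm h1 n52.symm n12 n15 hp hp1 with
        rfl | rfl | rfl
      · exact tri H.hT h.h23 h3 hap.symm
      · exact n34 (C4 H h.m3 h.m5 h.m4 m3 n35 h.h34 h3 h.h45.symm hap.symm).symm
      · exact h13 hap
  have h6 := zz_ge5 (G := G) (v := c3) (fun u hu => (Low.B H hL hu).1) ha3 h3 h5
  refine Low.rem H hL hc3 ?_
  omega

/-- outer neighbours of the vertices `1` and `4` are not adjacent -/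
theorem X (H : Ctx G U a) {c1 c2 c3 c4 c5 a1 a4 : Fin n} (h : Cyc G U c1 c2 c3 c4 c5)
    (m1 : a1 ∈ U) (m4 : a4 ∈ U) (h1 : G.Adj c1 a1) (n12 : a1 ≠ c2) (n15 : a1 ≠ c5)
    (h4 : G.Adj c4 a4) (n43 : a4 ≠ c3) (n45 : a4 ≠ c5) : ¬ G.Adj a1 a4 := by
  intro h14
  have n13 := h.n13 H
  have d13 := h.d13 H
  have n24 := h.rot.n13 H
  have d24 := h.rot.d13 H
  have n35 := h.rot.rot.n13 H
  have d35 := h.rot.rot.d13 H
  have n41 := h.rot.rot.rot.n13 H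
  have d41 := h.rot.rot.rot.d13 H
  have n52 := h.rot.rot.rot.rot.n13 H
  have d52 := h.rot.rot.rot.rot.d13 H
  obtain ⟨a3, m3, h3, n32, n34⟩ := third (H.hc c3 h.m3) h.m2 h.m4 h.h23.symm h.h34 n24
  have na4c1 : a4 ≠ c1 := by
    rintro rfl
    exact d41 h4
  have na1c4 : a1 ≠ c4 := by
    rintro rfl
    exact d41 h1.symm
  have hn1a4 : ¬ G.Adj c1 a4 := fun h' => tri H.hT h1 h14 h'
  have hn3a4 : ¬ G.Adj c3 a4 := fun h' => tri H.hT h.h34 h4 h'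
  -- step 1
  have h13 : G.Adj a3 a1 := by
    by_contra h13
    have hL := lowU2 H h m1 m3 h1 n12 n15 h3 n32 n34 h13
    have ha4 : a4 ∈ rem G (rem G U c1) c3 :=
      mem_rem.2 ⟨mem_rem.2 ⟨m4, na4c1, hn1a4⟩, n43, hn3a4⟩
    have hB := Low.B H hL ha4
    have h5 := dg_le1 (W := rem G (rem G U c1) c3) (rem_sub.trans rem_sub) (H.hc a4 m4) h.m4 m1
      h4.symm h14.symm (fun h' => (mem_rem.1 h').2.2 h.h34)
      (fun h' => (mem_rem.1 (mem_rem.1 h').1).2.2 h1) na1c4.symm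
    omega
  -- step 2
  have hL := low1 H m1
  have na1c3 : a1 ≠ c3 := by
    rintro rfl
    exact d13 h1
  have hc3 : c3 ∈ rem G U a1 := mem_rem.2 ⟨h.m3, na1c3.symm, fun h' => tri H.hT h3 h13 h'.symm⟩
  have hd3 := dg_le2 (W := rem G U a1) rem_sub (H.hc c3 h.m3) m3 h3
    (fun h' => (mem_rem.1 h').2.2 h13.symm)
  have hB3 := Low.B H hL hc3
  have hz3 := zz_ge2 (G := G) (v := c3) (fun u hu => (Low.B H hL hu).1)
  have hL2 : Low G U (rem G (rem G U a1) c3) 3 := Low.rem H hL hc3 (by omega)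
  have hc5 : c5 ∈ rem G (rem G U a1) c3 :=
    mem_rem.2 ⟨mem_rem.2 ⟨h.m5, n15.symm, fun h' => tri H.hT h.h51 h1 h'.symm⟩, n35.symm, d35⟩
  have hd5 := dg_le1 (W := rem G (rem G U a1) c3) (rem_sub.trans rem_sub) (H.hc c5 h.m5) h.m1 h.m4
    h.h51 h.h45.symm (fun h' => (mem_rem.1 (mem_rem.1 h').1).2.2 h1.symm)
    (fun h' => (mem_rem.1 h').2.2 h.h34) n41.symm
  have hnn := Low.nonneg H (Low.rem H hL2 hc5 le_rfl)
  have hd51 : dg G (rem G (rem G U a1) c3) c5 = 1 := by omega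
  have hz5 : zz G (rem G (rem G U a1) c3) c5 ≤ 1 := by omega
  rw [dg_eq] at hd51
  obtain ⟨t, ht⟩ := card_pos.1 (by omega : 0 < (nb G (rem G (rem G U a1) c3) c5).card)
  have hdt : dg G (rem G (rem G U a1) c3) t ≤ 1 := by
    refine le_trans ?_ hz5
    rw [zz_eq]
    exact single_le_sum (f := fun u => dg G (rem G (rem G U a1) c3) u) (fun _ _ => Nat.zero_le _) ht
  obtain ⟨htV, h5t⟩ := mem_nb.1 ht
  obtain ⟨htV1, htc3, hnc3t⟩ := mem_rem.1 htV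
  obtain ⟨htU, hta1, hna1t⟩ := mem_rem.1 htV1
  obtain ⟨p, hp, htp, hpn, hpa3⟩ := miss2 (H.hc t htU) hdt a3
  have htc4 : t ≠ c4 := by
    rintro rfl
    exact hnc3t h.h34
  have htc1 : t ≠ c1 := by
    rintro rfl
    exact hna1t h1.symm
  have na3c1 : a3 ≠ c1 := by
    rintro rfl
    exact d13 h3.symm
  have na43 : a4 ≠ a3 := by
    rintro rfl
    exact hn3a4 h3
  by_cases hp1 : G.Adj a1 p
  · rcases only (H.hc a1 m1) h.m1 m3 m4 h1.symm h13.symm h14 na3c1.symm na4c1 na43 hp hp1 with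
      rfl | rfl | rfl
    · exact tri H.hT h5t htp h.h51
    · exact hpa3 rfl
    · exact n45 (C4 H htU h.m4 h.m5 hp htc4 h5t.symm htp h.h45 h4).symm
  by_cases hp3 : G.Adj c3 p
  · rcases only (H.hc c3 h.m3) h.m2 h.m4 m3 h.h23.symm h.h34 h3 n24 n32 n34 hp hp3 with
      rfl | rfl | rfl
    · exact n52 (C4 H htU h.m1 h.m5 hp htc1 h5t.symm htp h.h51.symm h.h12)
    · exact tri H.hT h5t htp h.h45.symm
    · exact hpa3 rfl
  refine hpn (mem_rem.2 ⟨mem_rem.2 ⟨hp, ?_, hp1⟩, ?_, hp3⟩)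
  · rintro rfl
    exact hna1t htp.symm
  · rintro rfl
    exact hnc3t htp.symm

theorem cub (hrem : S_REM) : S_CUB := by
  intro n G U a hT hI hne hc hs ih
  have H : Ctx G U a := ⟨hrem, hT, hI, hc, hs, ih⟩
  obtain ⟨c1, m1⟩ := hne
  have hpos : 0 < (nb G U c1).card := by
    rw [← dg_eq, hc c1 m1]
    norm_num
  obtain ⟨c2, hc2⟩ := card_pos.1 hpos
  obtain ⟨m2, h12⟩ := mem_nb.1 hc2
  obtain ⟨c3, m3, h23, n31, -⟩ : ∃ r ∈ U, G.Adj c2 r ∧ r ≠ c1 ∧ True := by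
    have h1 : 0 < ((nb G U c2).erase c1).card := by
      rw [card_erase_of_mem (mem_nb.2 ⟨m1, h12.symm⟩), ← dg_eq, hc c2 m2]
      norm_num
    obtain ⟨r, hr⟩ := card_pos.1 h1
    rw [mem_erase, mem_nb] at hr
    exact ⟨r, hr.2.1, hr.2.2, hr.1, trivial⟩
  obtain ⟨c4, m4, c5, m5, h34, h45, h51, n52'⟩ := P5 H m1 m2 m3 h12 h23 n31.symm
  have h : Cyc G U c1 c2 c3 c4 c5 := ⟨m1, m2, m3, m4, m5, h12, h23, h34, h45, h51⟩
  have n13 := h.n13 H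
  have d13 := h.d13 H
  have n24 := h.rot.n13 H
  have d24 := h.rot.d13 H
  have n35 := h.rot.rot.n13 H
  have d35 := h.rot.rot.d13 H
  have n41 := h.rot.rot.rot.n13 H
  have d41 := h.rot.rot.rot.d13 H
  have n52 := h.rot.rot.rot.rot.n13 H
  have d52 := h.rot.rot.rot.rot.d13 H
  obtain ⟨a1, ma1, e1, na12, na15⟩ := third (hc c1 m1) m2 m5 h12 h51.symm n52.symm
  obtain ⟨a3, ma3, e3, na32, na34⟩ := third (hc c3 m3) m2 m4 h23.symm h34 n24
  obtain ⟨a4, ma4, e4, na43, na45⟩ := third (hc c4 m4) m3 m5 h34.symm h45 n35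
  obtain ⟨a5, ma5, e5, na54, na51⟩ := third (hc c5 m5) m4 m1 h45.symm h51 n41
  have x31 : ¬ G.Adj a3 a1 := X H h.rot.rot ma3 ma1 e3 na34 na32 e1 na15 na12
  have x14 : ¬ G.Adj a1 a4 := X H h ma1 ma4 e1 na12 na15 e4 na43 na45
  have hc2a4 : ¬ G.Adj c2 a4 := fun h' =>
    na43 (C4 H m2 m4 m3 ma4 n24 h23 h' h34.symm e4).symm
  have hc1a4 : ¬ G.Adj c1 a4 := fun h' =>
    na45 (C4 H m4 m1 m5 ma4 n41 h45 e4 h51.symm h').symm
  have hc3a4 : ¬ G.Adj c3 a4 := fun h' => tri hT h34 e4 h'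
  have hc5a4 : ¬ G.Adj c5 a4 := fun h' => tri hT h45 h' e4
  have na4c1 : a4 ≠ c1 := by
    rintro rfl
    exact d41 e4
  -- the common neighbour of `a4` and `a5`
  obtain ⟨b, mb, g, mg, ha4b, hbg, hg5, ng4⟩ := P5 H m5 m4 ma4 h45.symm e4 na45.symm
  have hga5 : g = a5 := by
    rcases only (hc c5 m5) m4 m1 ma5 h45.symm h51 e5 n41 na54 na51 mg hg5.symm with
      rfl | rfl | rfl
    · exact absurd rfl ng4
    · exfalso
      rcases only (hc g mg) m2 m5 ma1 h12 h51.symm e1 n52.symm na12 na15 mb hbg.symm with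
        rfl | rfl | rfl
      · exact hc2a4 ha4b.symm
      · exact hc5a4 ha4b.symm
      · exact x14 ha4b.symm
    · rfl
  subst hga5
  have nbc5 : b ≠ c5 := by
    rintro rfl
    exact hc5a4 ha4b.symm
  have nbc1 : b ≠ c1 := by
    rintro rfl
    exact hc1a4 ha4b.symm
  have nbc3 : b ≠ c3 := by
    rintro rfl
    exact hc3a4 ha4b.symm
  have nbc4 : b ≠ c4 := by
    rintro rfl
    exact tri hT h45 e5 hbg
  have nc1g : ¬ G.Adj c1 g := fun h' => tri hT h51.symm e5 h'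
  have nc3g : ¬ G.Adj c3 g := fun h' =>
    na54 (C4 H m3 m5 m4 mg n35 h34 h' h45.symm e5).symm
  have nga4 : g ≠ a4 := by
    rintro rfl
    exact hc5a4 e5
  -- the second 5-cycle
  have hC : Cyc G U b a4 c4 c5 g := ⟨mb, ma4, m4, m5, mg, ha4b.symm, e4.symm, h45, e5, hbg.symm⟩
  have hC' : Cyc G U b g c5 c4 a4 :=
    ⟨mb, mg, m5, m4, ma4, hbg, e5.symm, h45.symm, e4, ha4b⟩
  have nba1 : ¬ G.Adj b a1 := fun h' => by
    refine X H hC ma1 m1 h' ?_ ?_ h51 n41.symm ?_ e1.symm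
    · rintro rfl
      exact hc1a4 e1
    · rintro rfl
      exact nc1g e1
    · exact na51.symm
  have nba3 : ¬ G.Adj b a3 := fun h' => by
    refine X H hC' ma3 m3 h' ?_ ?_ h34.symm n35 na43.symm e3.symm
    · rintro rfl
      exact nc3g e3
    · rintro rfl
      exact hc3a4 e3
  have nbc2 : ¬ G.Adj b c2 := fun h' =>
    X H h.rot.rot.rot ma4 mb e4 na45 na43 h'.symm nbc1 nbc3 ha4b
  have nc1b : ¬ G.Adj c1 b := fun h' => by
    rcases only (hc c1 m1) m2 m5 ma1 h12 h51.symm e1 n52.symm na12 na15 mb h' with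
      rfl | rfl | rfl
    · exact hc2a4 ha4b.symm
    · exact nbc5 rfl
    · exact x14 ha4b.symm
  have nc3b : ¬ G.Adj c3 b := fun h' => by
    rcases only (hc c3 m3) m2 m4 ma3 h23.symm h34 e3 n24 na32 na34 mb h' with
      rfl | rfl | rfl
    · exact hc2a4 ha4b.symm
    · exact nbc4 rfl
    · exact na34 (C4 H m3 ma4 ma3 m4 na43.symm e3 h34 ha4b e4.symm)
  have hL2 := lowU2 H h ma1 ma3 e1 na12 na15 e3 na32 na34 x31
  have ha4 : a4 ∈ rem G (rem G U c1) c3 :=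
    mem_rem.2 ⟨mem_rem.2 ⟨ma4, na4c1, hc1a4⟩, na43, hc3a4⟩
  have hb2 : b ∈ rem G (rem G U c1) c3 :=
    mem_rem.2 ⟨mem_rem.2 ⟨mb, nbc1, nc1b⟩, nbc3, nc3b⟩
  have hB2 := Low.B H hL2 ha4
  have hd4 := dg_le2 (W := rem G (rem G U c1) c3) (rem_sub.trans rem_sub) (hc a4 ma4) m4 e4.symm
    (fun h' => (mem_rem.1 h').2.2 h34)
  have hdb : 3 ≤ dg G (rem G (rem G U c1) c3) b := by
    refine dg_ge3 (hc b mb) fun p hp hbp =>
      mem_rem.2 ⟨mem_rem.2 ⟨hp, ?_, fun hp1 => ?_⟩, ?_, fun hp3 => ?_⟩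
    · rintro rfl
      exact nc1b hbp.symm
    · rcases only (hc c1 m1) m2 m5 ma1 h12 h51.symm e1 n52.symm na12 na15 hp hp1 with
        rfl | rfl | rfl
      · exact nbc2 hbp
      · exact tri hT hbg hg5 hbp
      · exact nba1 hbp
    · rintro rfl
      exact nc3b hbp.symm
    · rcases only (hc c3 m3) m2 m4 ma3 h23.symm h34 e3 n24 na32 na34 hp hp3 with
        rfl | rfl | rfl
      · exact nbc2 hbp
      · exact tri hT ha4b.symm e4.symm hbp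
      · exact nba3 hbp
  have hz := zz_ge5 (G := G) (v := a4) (fun u hu => (Low.B H hL2 hu).1) hb2 ha4b hdb
  have hL3 : Low G U (rem G (rem G (rem G U c1) c3) a4) 1 := Low.rem H hL2 ha4 (by omega)
  have hg : g ∈ rem G (rem G (rem G U c1) c3) a4 := by
    refine mem_rem.2 ⟨mem_rem.2 ⟨mem_rem.2 ⟨mg, na51, nc1g⟩, ?_, nc3g⟩, nga4,
      fun h' => tri hT ha4b hbg h'⟩
    rintro rfl
    exact d35 e5.symm
  have hB3 := Low.B H hL3 hg
  have hdg := dg_le1 (W := rem G (rem G (rem G U c1) c3) a4)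
    (rem_sub.trans (rem_sub.trans rem_sub)) (hc g mg) m5 mb hg5 hbg.symm
    (fun h' => (mem_rem.1 (mem_rem.1 (mem_rem.1 h').1).1).2.2 h51.symm)
    (fun h' => (mem_rem.1 h').2.2 ha4b) nbc5.symm
  omega

end Pool.Agent.W225.TD2
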