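import Mathlib

/-!
# Project TD2 (MP_303581_co): minimum 2-density, the divisible case with ratio three: statements
-/

set_option autoImplicit false

open Finset

namespace Pool.Agent.W225.TD2

open Classical in
/-- twice the number of the edges of `G` inside `S`: the number of the ordered adjacent pairs -/
noncomputable def arcs {n : ℕ} (G : SimpleGraph (Fin n)) (S : Finset (Fin n)) : ℕ :=
  (Finset.univ.filter (fun p : Fin n × Fin n => p.1 ∈ S ∧ p.2 ∈ S ∧ G.Adj p.1 p.2)).card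

open Classical in
/-- the degree of `v` in `U` -/
noncomputable def dg {n : ℕ} (G : SimpleGraph (Fin n)) (U : Finset (Fin n)) (v : Fin n) : ℕ :=
  (U.filter (fun u => G.Adj v u)).card

open Classical in
/-- the sum of the degrees of the neighbours of `v` in `U` -/
noncomputable def zz {n : ℕ} (G : SimpleGraph (Fin n)) (U : Finset (Fin n)) (v : Fin n) : ℕ :=
  ∑ u ∈ U.filter (fun u => G.Adj v u), dg G U u

open Classical in
/-- `U` without `v` and its neighbours -/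
noncomputable def rem {n : ℕ} (G : SimpleGraph (Fin n)) (U : Finset (Fin n)) (v : Fin n) :
    Finset (Fin n) := U.filter (fun u => u ≠ v ∧ ¬ G.Adj v u)

/-- the independent sets in `U` have at most `a` elements -/
def Ind {n : ℕ} (G : SimpleGraph (Fin n)) (U : Finset (Fin n)) (a : ℕ) : Prop :=
  ∀ I ⊆ U, (∀ u ∈ I, ∀ v ∈ I, ¬ G.Adj u v) → I.card ≤ a

/-- the slack -/
noncomputable def sl {n : ℕ} (G : SimpleGraph (Fin n)) (U : Finset (Fin n)) (a : ℕ) : ℤ :=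
  (arcs G U : ℤ) + 20 * a - 10 * U.card

/-- REM: removal of a vertex and its neighbours -/
def S_REM : Prop := ∀ (n : ℕ) (G : SimpleGraph (Fin n)) (U : Finset (Fin n)) (a : ℕ) (v : Fin n),
  G.CliqueFree 3 → v ∈ U → Ind G U a →
    1 ≤ a ∧ Ind G (rem G U v) (a - 1) ∧
    sl G (rem G U v) (a - 1) = sl G U a - (2 * (zz G U v : ℤ) - 10 * (dg G U v : ℤ) + 10)

/-- CUB: the cubic case -/
def S_CUB : Prop := ∀ (n : ℕ) (G : SimpleGraph (Fin n)) (U : Finset (Fin n)) (a : ℕ),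
  G.CliqueFree 3 → Ind G U a → U.Nonempty → (∀ v ∈ U, dg G U v = 3) → sl G U a < 0 →
  (∀ (U' : Finset (Fin n)) (a' : ℕ), U' ⊂ U → Ind G U' a' → 0 ≤ sl G U' a') → False

/-- KR: the bound of Kreher and Radziszowski -/
def S_KR : Prop := ∀ (n : ℕ) (G : SimpleGraph (Fin n)) (U : Finset (Fin n)) (a : ℕ),
  G.CliqueFree 3 → Ind G U a → 0 ≤ sl G U a

/-- ALPHA: independent sets of the closed chain -/
def S_ALPHA : Prop := ∀ (n : ℕ) (d x y : Fin (n + 4) → ℕ),
  (∀ i, d i ≤ 1) → (∀ i, x i ≤ 1) → (∀ i, y i ≤ 1) → (∀ i, d i * d (i + 1) = 0) →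
  (∀ i, d i * x i = 0) → (∀ i, d i * y (i + 1) = 0) → (∀ i, x i * y i = 0) →
  (∀ i, y i * x (i + 1) = 0) → ∑ i, (d i + x i + y i) ≤ n + 4

/-- SPARSE: the edges inside subsets of the closed chain -/
def S_SPARSE : Prop := ∀ (n : ℕ) (d x y : Fin (n + 4) → ℤ),
  (∀ i, d i = 0 ∨ d i = 1) → (∀ i, x i = 0 ∨ x i = 1) → (∀ i, y i = 0 ∨ y i = 1) →
  3 ≤ ∑ i, (d i + x i + y i) →
  (∑ i, (d i * d (i + 1) + d i * x i + d i * y (i + 1) + x i * y i + y i * x (i + 1)) - 1) *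
    (3 * ((n : ℤ) + 4) - 2) ≤ (5 * ((n : ℤ) + 4) - 1) * (∑ i, (d i + x i + y i) - 2)

/-- UB: the graph -/
def S_UB : Prop := ∀ k : ℕ, 4 ≤ k → ∃ G : SimpleGraph (Fin (3 * k)), Gᶜ.CliqueFree (k + 1) ∧
  ∀ S : Finset (Fin (3 * k)), 3 ≤ S.card →
    ((arcs G S : ℝ) / 2 - 1) * (3 * k - 2) ≤ (5 * k - 1) * ((S.card : ℝ) - 2)

end Pool.Agent.W225.TD2
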